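import Pool.Agent.VB.C

/-!
# VCM, module VI: transfer of scattered large structures to definable substructures and expansions
-/

set_option autoImplicit false
set_option linter.unusedSectionVars false
set_option linter.unusedVariables false

namespace Pool.Agent.Helper97.LO

open Set Pool.Agent.Helper5.DU Pool.Agent.Helper6.Str Pool.Agent.Helper79.VC
  Pool.Agent.Helper97.VC

variable {L L' : FirstOrder.Language.{0, 0}} {M M' N P : Type}

namespace VI

theorem bfr_zero {S : L.Structure M} {S' : L.Structure N} {U : Set M} {V : Set N}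
    {p : Set (M × N)} : BFR S S' U V 0 p ↔ AtEq S S' p := by
  rw [BFR.def]
  exact ⟨fun h => h.1, fun h => ⟨h, fun β hβ => absurd hβ (not_lt.mpr (zero_le (a := β)))⟩⟩

theorem atEq_trans {S : L.Structure M} {S' : L.Structure N} {S'' : L.Structure P}
    {p : Set (M × N)} {q : Set (N × P)} {r : Set (M × P)} (h1 : AtEq S S' p) (h2 : AtEq S' S'' q)
    (hr : ∀ a ∈ r, ∃ b, (a.1, b) ∈ p ∧ (b, a.2) ∈ q) : AtEq S S'' r := by
  have h1' : BFR S S' univ univ 0 p := bfr_zero.mpr h1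
  have h2' : BFR S' S'' univ univ 0 q := bfr_zero.mpr h2
  exact (h1'.trans h2' hr).atEq

theorem atEq_symm {S : L.Structure M} {S' : L.Structure N} {p : Set (M × N)} {q : Set (N × M)}
    (h : AtEq S S' p) (hq : ∀ a ∈ q, (a.2, a.1) ∈ p) : AtEq S' S q := by
  have h' : BFR S S' univ univ 0 p := bfr_zero.mpr h
  exact (h'.symm hq).atEq

/-! ### countable closed sets -/

theorem exists_clo {S : L.Structure M} {d : Ordinal.{0}}
    (h : ∀ F : Finset M, ∃ κ : M → ℕ, ∀ c c', κ c = κ c' →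
      BFR S S univ univ d (insert (c, c') (dg (F : Set M)))) {A₀ : Set M} (hA₀ : A₀.Countable) :
    ∃ A : Set M, A.Countable ∧ A₀ ⊆ A ∧ ∀ F : Finset M, (F : Set M) ⊆ A → ∀ c : M, ∃ c' ∈ A,
      BFR S S univ univ d (insert (c, c') (dg (F : Set M))) := by
  classical
  have hκ : ∀ F : Finset M, ∃ T : Set M, T.Countable ∧ ∀ c : M, ∃ c' ∈ T,
      BFR S S univ univ d (insert (c, c') (dg (F : Set M))) := by
    intro F
    obtain ⟨κ, hκ⟩ := h F
    have hrep : ∀ (m : ℕ), ∃ T : Set M, T.Countable ∧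
        ((∃ c, κ c = m) → ∃ c ∈ T, κ c = m) := by
      intro m
      by_cases h : ∃ c, κ c = m
      · obtain ⟨c, hc⟩ := h
        exact ⟨{c}, countable_singleton _, fun _ => ⟨c, rfl, hc⟩⟩
      · exact ⟨∅, countable_empty, fun h' => absurd h' h⟩
    choose T hT1 hT2 using hrep
    refine ⟨⋃ m, T m, countable_iUnion hT1, fun c => ?_⟩
    obtain ⟨c', hc', hcc⟩ := hT2 (κ c) ⟨c, rfl⟩
    exact ⟨c', mem_iUnion.mpr ⟨κ c, hc'⟩, hκ c c' hcc.symm⟩
  choose T hT1 hT2 using hκ
  obtain ⟨B, hBc, hB⟩ := Pool.Agent.Helper97.VC.exists_closed (fun F => A₀ ∪ T F)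
    (fun F => hA₀.union (hT1 F))
  refine ⟨B, hBc, fun x hx => hB ∅ (by simp) (Or.inl hx), fun F hF c => ?_⟩
  obtain ⟨c', hc', h⟩ := hT2 F c
  exact ⟨c', hB F hF (Or.inr hc'), h⟩

/-- a countable copy, equivalent at a given level -/
theorem exists_copy [∀ n, IsEmpty (L.Functions n)] [Infinite M] {S : L.Structure M}
    {d : Ordinal.{0}} {A : Set M} (hA : A.Countable)
    (h : ∀ F : Finset M, (F : Set M) ⊆ A → ∀ c : M, ∃ c' ∈ A,
      BFR S S univ univ d (insert (c, c') (dg (F : Set M)))) :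
    ∃ T : L.Structure ℕ, BFR T S univ A d ∅ ∧ BFR T S univ univ d ∅ ∧
      ∀ γ, BFR T S univ A γ ∅ := by
  obtain ⟨f, hf, hfB⟩ := exists_enum hA (fun F hF c => by
    obtain ⟨c', hc', h⟩ := h F hF c
    exact ⟨c', hc', h.mono (bot_le)⟩)
  have h1 : ∀ γ, BFR (pl S f) S univ A γ ∅ := by
    intro γ
    rw [← hfB]
    exact BFR_pl hf γ fun a ha => absurd ha (notMem_empty a)
  have hclo : Clo S univ d A := by
    intro F hF c _
    obtain ⟨c', hc', h'⟩ := h F (fun a ha => (hF ha).1) c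
    exact ⟨c', ⟨hc', mem_univ _⟩, h'⟩
  have h2 := hclo.bfr (F := ∅) finite_empty (empty_subset _)
  rw [inter_univ] at h2
  have h3 : BFR S (pl S f) univ univ d ∅ := by
    rw [← hfB] at h2
    exact BFR_pl' hf h2 fun a ha => absurd ha (notMem_empty a)
  exact ⟨pl S f, h1 d, h3.symm (fun a ha => absurd ha (notMem_empty a)), h1⟩

/-! ### restriction to the definable substructure -/

section

variable {S : L.Structure M} {S' : L'.Structure M'} {e : M' → M}

/-- equivalences of `S` over `F` restrict to `S'` -/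
theorem restr {F : Set M} {η : Ordinal.{0}}
    (hX : ∀ c c', BFR S S univ univ η (insert (c, c') (dg F)) → (c ∈ range e ↔ c' ∈ range e))
    (H1 : ∀ p : Set (M' × M'), p.Finite →
      BFR S S univ univ η ((fun a => (e a.1, e a.2)) '' p ∪ dg F) → AtEq S' S' p)
    (γ : Ordinal.{0}) : ∀ {p : Set (M' × M')}, p.Finite →
      BFR S S univ univ (η + γ) ((fun a => (e a.1, e a.2)) '' p ∪ dg F) →
      BFR S' S' univ univ γ p := by
  induction γ using WellFoundedLT.induction with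
  | _ γ ih =>
    intro p hp h
    rw [BFR.def]
    refine ⟨H1 p hp (h.mono le_self_add), fun β hβ => ⟨fun x _ => ?_, fun y _ => ?_⟩⟩
    · obtain ⟨y, -, hy⟩ := h.forth (add_lt_add_right hβ η) (mem_univ (e x))
      have h1 := (hX (e x) y (BFR.anti (by
        rintro a (rfl | ha)
        · exact mem_insert _ _
        · exact mem_insert_of_mem _ (Or.inr ha)) (hy.mono le_self_add))).mp (mem_range_self x)
      obtain ⟨y', rfl⟩ := h1
      refine ⟨y', mem_univ _, ih β hβ (hp.insert _) (BFR.anti ?_ hy)⟩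
      rintro a (⟨b, (rfl | hb), rfl⟩ | ha)
      · exact mem_insert _ _
      · exact mem_insert_of_mem _ (Or.inl ⟨b, hb, rfl⟩)
      · exact mem_insert_of_mem _ (Or.inr ha)
    · obtain ⟨x, -, hx⟩ := h.back (add_lt_add_right hβ η) (mem_univ (e y))
      have h1 := (hX x (e y) (BFR.anti (by
        rintro a (rfl | ha)
        · exact mem_insert _ _
        · exact mem_insert_of_mem _ (Or.inr ha)) (hx.mono le_self_add))).mpr (mem_range_self y)
      obtain ⟨x', rfl⟩ := h1
      refine ⟨x', mem_univ _, ih β hβ (hp.insert _) (BFR.anti ?_ hx)⟩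
      rintro a (⟨b, (rfl | hb), rfl⟩ | ha)
      · exact mem_insert _ _
      · exact mem_insert_of_mem _ (Or.inl ⟨b, hb, rfl⟩)
      · exact mem_insert_of_mem _ (Or.inr ha)

end

/-! ### the extension of a model of the substructure -/

section ext

variable [∀ n, IsEmpty (L.Functions n)]

/-- the extension of `T` by the outside elements `B` -/
@[instance_reducible]
def ext (S : L.Structure M) (S' : L'.Structure M') (e : M' → M) (B : Set M)
    (T : L'.Structure ℕ) : L.Structure (ℕ ⊕ B) where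
  funMap g := isEmptyElim g
  RelMap {n} R x := ∃ a : Fin n → M,
    AtEq T S' {q : ℕ × M' | ∃ i, x i = Sum.inl q.1 ∧ a i = e q.2} ∧
    (∀ i (b : B), x i = Sum.inr b → a i = b) ∧ (∀ i t, x i = Sum.inl t → a i ∈ range e) ∧
    S.RelMap R a

/-- the lift of a set of pairs -/
def lift (e : M' → M) (B : Set M) (p : Set (ℕ × M')) (G : Set M) : Set ((ℕ ⊕ B) × M) :=
  {z | (∃ t a, (t, a) ∈ p ∧ z = (Sum.inl t, e a)) ∨ ∃ b : B, (b : M) ∈ G ∧ z = (Sum.inr b, (b : M))}

theorem lift_mono {e : M' → M} {B : Set M} {p p' : Set (ℕ × M')} {G G' : Set M} (h : p ⊆ p')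
    (h' : G ⊆ G') : lift e B p G ⊆ lift e B p' G' := by
  rintro z (⟨t, a, h1, rfl⟩ | ⟨b, h1, rfl⟩)
  · exact Or.inl ⟨t, a, h h1, rfl⟩
  · exact Or.inr ⟨b, h' h1, rfl⟩

variable {S : L.Structure M} {S' : L'.Structure M'} {e : M' → M} {B : Set M}

theorem atEq_ext (he : Function.Injective e) (hB : ∀ b ∈ B, b ∉ range e)
    (H2 : ∀ p : Set (M' × M'), p.Finite → AtEq S' S' p → ∀ G : Set M, (∀ g ∈ G, g ∉ range e) →
      AtEq S S ((fun a => (e a.1, e a.2)) '' p ∪ dg G))
    {T : L'.Structure ℕ} {p : Set (ℕ × M')} (h : AtEq T S' p) (G : Set M) :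
    AtEq (ext S S' e B T) S (lift e B p G) := by
  refine ⟨?_, fun n R v hv => ?_⟩
  · rintro z (⟨t, a, h1, rfl⟩ | ⟨b, h1, rfl⟩) z' (⟨t', a', h1', rfl⟩ | ⟨b', h1', rfl⟩)
    · simp only [Sum.inl.injEq, he.eq_iff]
      exact h.1 _ h1 _ h1'
    · simp only [reduceCtorEq, false_iff]
      intro h2
      exact hB _ b'.2 ⟨a, h2⟩
    · simp only [reduceCtorEq, false_iff]
      intro h2
      exact hB _ b.2 ⟨a', h2.symm⟩
    · simp only [Sum.inr.injEq]
      exact Subtype.ext_iff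
  · constructor
    · rintro ⟨a, h1, h2, h3, h4⟩
      set Q : Set (M' × M') := {z | ∃ i, ∃ t, (v i).1 = Sum.inl t ∧ a i = e z.1 ∧
        (v i).2 = e z.2} with hQ
      have hQf : Q.Finite := by
        have : Q ⊆ ⋃ i, {z | a i = e z.1 ∧ (v i).2 = e z.2} := by
          rintro z ⟨i, t, -, h5, h6⟩
          exact mem_iUnion.mpr ⟨i, h5, h6⟩
        refine (finite_iUnion fun i => ?_).subset this
        apply Set.Subsingleton.finite
        rintro z ⟨h5, h6⟩ z' ⟨h7, h8⟩
        exact Prod.ext (he (h5.symm.trans h7)) (he (h6.symm.trans h8))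
      have hQ2 : AtEq S' S' Q := by
        refine atEq_trans (p := {z : M' × ℕ | ∃ i, (v i).1 = Sum.inl z.2 ∧ a i = e z.1}) (q := p)
          (atEq_symm h1 ?_) h ?_
        · rintro ⟨z1, z2⟩ ⟨i, h5, h6⟩
          exact ⟨i, h5, h6⟩
        · rintro ⟨z1, z2⟩ ⟨i, t, h5, h6, h7⟩
          refine ⟨t, ⟨i, h5, h6⟩, ?_⟩
          rcases hv i with ⟨t', a', h8, h9⟩ | ⟨b, h8, h9⟩
          · rw [h9] at h5 h7
            have e1 : t' = t := Sum.inl_injective h5
            have e2 : a' = z2 := he h7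
            rw [← e1, ← e2]; exact h8
          · rw [h9] at h5
            exact absurd h5 (by simp)
      have h5 := (H2 Q hQf hQ2 (G ∩ B) (fun g hg => hB g hg.2)).2 n R
        (fun i => (a i, (v i).2)) (fun i => by
          rcases hv i with ⟨t', a', h8, h9⟩ | ⟨b, h8, h9⟩
          · left
            obtain ⟨a0, ha0⟩ := h3 i t' (by simp only [h9])
            exact ⟨(a0, a'), ⟨i, t', by rw [h9], ha0.symm, by rw [h9]⟩, by rw [h9, ← ha0]⟩
          · right
            have h10 := h2 i b (by simp only [h9])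
            exact ⟨b, ⟨h8, b.2⟩, by rw [h9, h10]⟩)
      exact h5.mp h4
    · intro h4
      refine ⟨fun i => (v i).2, ?_, ?_, ?_, h4⟩
      · refine AtEq.anti ?_ h
        rintro ⟨t, a⟩ ⟨i, h5, h6⟩
        rcases hv i with ⟨t', a', h8, h9⟩ | ⟨b, h8, h9⟩
        · simp only [h9] at h5 h6
          have e1 : t' = t := Sum.inl_injective h5
          have e2 : a' = a := he h6
          rw [← e1, ← e2]; exact h8
        · simp only [h9] at h5
          exact absurd h5 (by simp)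
      · intro i b h5
        rcases hv i with ⟨t', a', h8, h9⟩ | ⟨b', h8, h9⟩
        · simp only [h9] at h5
          exact absurd h5 (by simp)
        · simp only [h9] at h5 ⊢
          rw [Sum.inr_injective h5]
      · intro i t h5
        rcases hv i with ⟨t', a', h8, h9⟩ | ⟨b', h8, h9⟩
        · simp only [h9]
          exact mem_range_self _
        · simp only [h9] at h5
          exact absurd h5 (by simp)

/-- equivalences lift to the extensions -/
theorem bfr_ext (he : Function.Injective e) {A : Set M}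
    (H2 : ∀ p : Set (M' × M'), p.Finite → AtEq S' S' p → ∀ G : Set M, (∀ g ∈ G, g ∉ range e) →
      AtEq S S ((fun a => (e a.1, e a.2)) '' p ∪ dg G))
    {T : L'.Structure ℕ} (γ : Ordinal.{0}) : ∀ {p : Set (ℕ × M')} (G : Set M),
      BFR T S' univ (e ⁻¹' A) γ p →
      BFR (ext S S' e (A \ range e) T) S univ A γ (lift e (A \ range e) p G) := by
  induction γ using WellFoundedLT.induction with
  | _ γ ih =>
    intro p G h
    rw [BFR.def]
    refine ⟨atEq_ext he (fun b hb => hb.2) H2 h.atEq G, fun β hβ =>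
      ⟨fun x _ => ?_, fun y hy => ?_⟩⟩
    · rcases x with t | b
      · obtain ⟨a, ha, h1⟩ := h.forth hβ (mem_univ t)
        refine ⟨e a, ha, BFR.anti ?_ (ih β hβ G h1)⟩
        rintro z (rfl | hz)
        · exact Or.inl ⟨t, a, mem_insert _ _, rfl⟩
        · exact lift_mono (subset_insert _ _) Subset.rfl hz
      · refine ⟨b, b.2.1, BFR.anti ?_ (ih β hβ (insert (b : M) G) (h.mono hβ.le))⟩
        rintro z (rfl | hz)
        · exact Or.inr ⟨b, mem_insert _ _, rfl⟩
        · exact lift_mono Subset.rfl (subset_insert _ _) hz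
    · by_cases hr : y ∈ range e
      · obtain ⟨a, rfl⟩ := hr
        obtain ⟨t, -, h1⟩ := h.back hβ (y := a) hy
        refine ⟨Sum.inl t, mem_univ _, BFR.anti ?_ (ih β hβ G h1)⟩
        rintro z (rfl | hz)
        · exact Or.inl ⟨t, a, mem_insert _ _, rfl⟩
        · exact lift_mono (subset_insert _ _) Subset.rfl hz
      · refine ⟨Sum.inr ⟨y, hy, hr⟩, mem_univ _,
          BFR.anti ?_ (ih β hβ (insert y G) (h.mono hβ.le))⟩
        rintro z (rfl | hz)
        · exact Or.inr ⟨⟨y, hy, hr⟩, mem_insert _ _, rfl⟩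
        · exact lift_mono Subset.rfl (subset_insert _ _) hz

theorem lift_finite {p : Set (ℕ × M')} {G : Set M} (hp : p.Finite) (hG : G.Finite) :
    (lift e B p G).Finite := by
  have h1 : lift e B p G ⊆ ((fun a : ℕ × M' => ((Sum.inl a.1 : ℕ ⊕ B), e a.2)) '' p) ∪
      ((fun b : B => ((Sum.inr b : ℕ ⊕ B), (b : M))) '' {b : B | (b : M) ∈ G}) := by
    rintro z (⟨t, a, h1, rfl⟩ | ⟨b, h1, rfl⟩)
    · exact Or.inl ⟨(t, a), h1, rfl⟩
    · exact Or.inr ⟨b, h1, rfl⟩
  refine Finite.subset ((hp.image _).union (Finite.image _ ?_)) h1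
  exact hG.preimage Subtype.val_injective.injOn

variable {A : Set M} {lam η : Ordinal.{0}}

/-- comparison of the extension with the whole structure -/
theorem bfr_ext' (he : Function.Injective e)
    (H2 : ∀ p : Set (M' × M'), p.Finite → AtEq S' S' p → ∀ G : Set M, (∀ g ∈ G, g ∉ range e) →
      AtEq S S ((fun a => (e a.1, e a.2)) '' p ∪ dg G))
    (hA : Clo S univ lam A) {T : L'.Structure ℕ} {γ : Ordinal.{0}} (hγ : γ ≤ lam)
    {p : Set (ℕ × M')} (hp : p.Finite) (hpA : ∀ a ∈ p, e a.2 ∈ A) {G : Set M} (hG : G.Finite)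
    (h : BFR T S' univ (e ⁻¹' A) γ p) :
    BFR (ext S S' e (A \ range e) T) S univ univ γ (lift e (A \ range e) p G) := by
  have h1 := bfr_ext he H2 γ G h
  have hf := (lift_finite (e := e) (B := A \ range e) hp hG).image Prod.snd
  have h2 := hA.bfr hf (by
    rintro _ ⟨z, (⟨t, a, h1, rfl⟩ | ⟨b, h1, rfl⟩), rfl⟩
    · exact ⟨hpA _ h1, mem_univ _⟩
    · exact ⟨b.2.1, mem_univ _⟩)
  rw [inter_univ] at h2
  have h3 : BFR S S A univ γ (dg (Prod.snd '' lift e (A \ range e) p G)) := by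
    refine (h2.mono hγ).symm ?_
    rintro _ ⟨a, ha, rfl⟩
    exact ⟨a, ha, rfl⟩
  refine h1.trans h3 ?_
  intro z hz
  exact ⟨z.2, hz, ⟨z.2, ⟨z, hz, rfl⟩, rfl⟩⟩

/-- data for the parameters -/
structure Pd (S' : L'.Structure M') (e : M' → M) (A : Set M) (η : Ordinal.{0}) {m : ℕ}
    (c : Fin m → M) (g : Fin m → M') (T : L'.Structure ℕ) (t : Fin m → ℕ) : Prop where
  gA : ∀ i, e (g i) ∈ A
  gc : ∀ i, c i ∈ range e → e (g i) = c i
  bf : BFR T S' univ (e ⁻¹' A) (η + Ordinal.omega0) (range fun i => (t i, g i))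

/-- the parameters in the extension -/
noncomputable def par (e : M' → M) {A : Set M} {m : ℕ} (c : Fin m → M) (hc : ∀ i, c i ∈ A)
    (t : Fin m → ℕ) (i : Fin m) : ℕ ⊕ (A \ range e : Set M) :=
  open Classical in if h : c i ∈ range e then Sum.inl (t i) else Sum.inr ⟨c i, hc i, h⟩

theorem par_mem {m : ℕ} {c : Fin m → M} (hc : ∀ i, c i ∈ A) {g : Fin m → M'}
    (gc : ∀ i, c i ∈ range e → e (g i) = c i) (t : Fin m → ℕ) (i : Fin m) {p : Set (ℕ × M')}
    {G : Set M} (hp : (t i, g i) ∈ p) (hG : c i ∈ G) :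
    (par e c hc t i, c i) ∈ lift e (A \ range e) p G := by
  unfold par
  split_ifs with h
  · exact Or.inl ⟨t i, g i, hp, by rw [gc i h]⟩
  · exact Or.inr ⟨⟨c i, hc i, h⟩, hG, rfl⟩

theorem link [Nonempty M'] (he : Function.Injective e)
    (H2 : ∀ p : Set (M' × M'), p.Finite → AtEq S' S' p → ∀ G : Set M, (∀ g ∈ G, g ∉ range e) →
      AtEq S S ((fun a => (e a.1, e a.2)) '' p ∪ dg G))
    (hA : Clo S univ lam A) (hη : η ≤ lam) {m : ℕ} {c : Fin m → M} (hc : ∀ i, c i ∈ A)
    {g : Fin m → M'} {T : L'.Structure ℕ} {t : Fin m → ℕ} (h : Pd S' e A η c g T t)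
    {Q : Set ℕ} (hQ : Q.Finite) {G : Set M} (hG : G.Finite) :
    ∃ w : ℕ → M', AtEq T S' ((fun s => (s, w s)) '' Q) ∧
      BFR (ext S S' e (A \ range e) T) S univ univ η
        (lift e (A \ range e) ((fun s => (s, w s)) '' Q) G ∪ range fun i => (par e c hc t i, c i)) := by
  classical
  obtain ⟨Q, rfl⟩ := hQ.exists_finset_coe
  have h1 : BFR T S' univ (e ⁻¹' A) (η + ((Q.card : ℕ) : Ordinal.{0})) (range fun i => (t i, g i)) := by
    refine h.bf.mono ?_
    gcongr
    exact (Ordinal.natCast_lt_omega0 _).le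
  obtain ⟨y, hy, h2⟩ := BFR.forth_many _ h1 (fun i => ((Q.equivFin.symm i : Q) : ℕ))
    fun _ => mem_univ _
  let w : ℕ → M' := fun s => if hs : s ∈ Q then y (Q.equivFin ⟨s, hs⟩) else Classical.arbitrary M'
  have hw : ∀ s ∈ (Q : Set ℕ), (s, w s) ∈ range fun i => (((Q.equivFin.symm i : Q) : ℕ), y i) := by
    intro s hs
    have hs' : s ∈ Q := hs
    refine ⟨Q.equivFin ⟨s, hs'⟩, ?_⟩
    simp [w, hs']
  set p : Set (ℕ × M') := ((fun s => (s, w s)) '' (Q : Set ℕ)) ∪ range fun i => (t i, g i) with hp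
  have h3 : BFR T S' univ (e ⁻¹' A) η p := by
    refine BFR.anti ?_ h2
    rintro a (⟨s, hs, rfl⟩ | ha)
    · exact Or.inr (hw s hs)
    · exact Or.inl ha
  have hpf : p.Finite := (Q.finite_toSet.image _).union (finite_range _)
  have hpA : ∀ a ∈ p, e a.2 ∈ A := by
    rintro a (⟨s, hs, rfl⟩ | ⟨i, rfl⟩)
    · obtain ⟨i, hi⟩ := hw s hs
      have h4 : y i = w s := congrArg Prod.snd hi
      show e (w s) ∈ A
      rw [← h4]
      exact hy i
    · exact h.gA i
  refine ⟨w, h3.atEq.anti subset_union_left, ?_⟩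
  have h5 := bfr_ext' he H2 hA hη hpf hpA (G := G ∪ range c) (hG.union (finite_range _)) h3
  refine BFR.anti ?_ h5
  rintro a (ha | ⟨i, rfl⟩)
  · exact lift_mono subset_union_left subset_union_left ha
  · exact par_mem hc h.gc t i (Or.inr ⟨i, rfl⟩) (Or.inr ⟨i, rfl⟩)

/-- equivalences of the extensions restrict to the structures -/
theorem down [Nonempty M'] (he : Function.Injective e)
    (H2 : ∀ p : Set (M' × M'), p.Finite → AtEq S' S' p → ∀ G : Set M, (∀ g ∈ G, g ∉ range e) →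
      AtEq S S ((fun a => (e a.1, e a.2)) '' p ∪ dg G))
    (hA : Clo S univ lam A) (hη : η ≤ lam) {m : ℕ} {c : Fin m → M} (hc : ∀ i, c i ∈ A)
    {F : Set M} (hF : F = range c)
    (hX : ∀ c c', BFR S S univ univ η (insert (c, c') (dg F)) → (c ∈ range e ↔ c' ∈ range e))
    (H1 : ∀ p : Set (M' × M'), p.Finite →
      BFR S S univ univ η ((fun a => (e a.1, e a.2)) '' p ∪ dg F) → AtEq S' S' p)
    {g : Fin m → M'} {T₁ T₂ : L'.Structure ℕ} {t₁ t₂ : Fin m → ℕ} (h₁ : Pd S' e A η c g T₁ t₁)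
    (h₂ : Pd S' e A η c g T₂ t₂) (γ : Ordinal.{0}) : ∀ {p : Set (ℕ × ℕ)}, p.Finite →
      BFR (ext S S' e (A \ range e) T₁) (ext S S' e (A \ range e) T₂) univ univ (η + γ)
        ((fun a => (Sum.inl a.1, Sum.inl a.2)) '' p ∪
          range fun i => (par e c hc t₁ i, par e c hc t₂ i)) →
      BFR T₁ T₂ univ univ γ p := by
  -- the elements of the substructure are respected
  have elem : ∀ {T : L'.Structure ℕ} {t : Fin m → ℕ}, Pd S' e A η c g T t →
      ∀ x : ℕ ⊕ (A \ range e : Set M), ∃ c₀ : M, (c₀ ∈ range e ↔ ∃ s, x = Sum.inl s) ∧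
      BFR (ext S S' e (A \ range e) T) S univ univ η
        (insert (x, c₀) (range fun i => (par e c hc t i, c i))) := by
    intro T t h x
    rcases x with s | b
    · obtain ⟨w, -, hw⟩ := link he H2 hA hη hc h (finite_singleton s) finite_empty
      refine ⟨e (w s), ⟨fun _ => ⟨s, rfl⟩, fun _ => mem_range_self _⟩, BFR.anti ?_ hw⟩
      rintro a (rfl | ha)
      · exact Or.inl (Or.inl ⟨s, w s, ⟨s, rfl, rfl⟩, rfl⟩)
      · exact Or.inr ha
    · obtain ⟨w, -, hw⟩ := link he H2 hA hη hc h finite_empty (finite_singleton (b : M))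
      refine ⟨b, ⟨fun h' => absurd h' b.2.2, fun ⟨s, hs⟩ => absurd hs (by simp)⟩, BFR.anti ?_ hw⟩
      rintro a (rfl | ha)
      · exact Or.inl (Or.inr ⟨b, rfl, rfl⟩)
      · exact Or.inr ha
  have dfn : ∀ x y : ℕ ⊕ (A \ range e : Set M),
      BFR (ext S S' e (A \ range e) T₁) (ext S S' e (A \ range e) T₂) univ univ η
        (insert (x, y) (range fun i => (par e c hc t₁ i, par e c hc t₂ i))) →
      ((∃ s, x = Sum.inl s) ↔ ∃ s, y = Sum.inl s) := by
    intro x y h
    obtain ⟨cx, hcx, hx⟩ := elem h₁ x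
    obtain ⟨cy, hcy, hy⟩ := elem h₂ y
    rw [← hcx, ← hcy]
    apply hX
    have h3 : BFR S (ext S S' e (A \ range e) T₁) univ univ η
        (insert (cx, x) (range fun i => (c i, par e c hc t₁ i))) := by
      refine hx.symm ?_
      rintro a (rfl | ⟨i, rfl⟩)
      · exact mem_insert _ _
      · exact mem_insert_of_mem _ ⟨i, rfl⟩
    have h4 : BFR S (ext S S' e (A \ range e) T₂) univ univ η
        (insert (cx, y) (range fun i => (c i, par e c hc t₂ i))) := by
      refine h3.trans h ?_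
      rintro a (rfl | ⟨i, rfl⟩)
      · exact ⟨x, mem_insert _ _, mem_insert _ _⟩
      · exact ⟨_, mem_insert_of_mem _ ⟨i, rfl⟩, mem_insert_of_mem _ ⟨i, rfl⟩⟩
    refine h4.trans hy ?_
    rintro a (rfl | ⟨f, hf, rfl⟩)
    · exact ⟨y, mem_insert _ _, mem_insert _ _⟩
    · rw [hF] at hf
      obtain ⟨i, rfl⟩ := hf
      exact ⟨_, mem_insert_of_mem _ ⟨i, rfl⟩, mem_insert_of_mem _ ⟨i, rfl⟩⟩
  induction γ using WellFoundedLT.induction with
  | _ γ ih =>
    intro p hp h
    rw [BFR.def]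
    refine ⟨?_, fun β hβ => ⟨fun x _ => ?_, fun y _ => ?_⟩⟩
    · obtain ⟨w₁, ha₁, hw₁⟩ := link he H2 hA hη hc h₁ (hp.image Prod.fst) finite_empty
      obtain ⟨w₂, ha₂, hw₂⟩ := link he H2 hA hη hc h₂ (hp.image Prod.snd) finite_empty
      have h3 : BFR S (ext S S' e (A \ range e) T₁) univ univ η
          (((fun s => (e (w₁ s), Sum.inl s)) '' (Prod.fst '' p)) ∪
            range fun i => (c i, par e c hc t₁ i)) := by
        refine hw₁.symm ?_
        rintro a (⟨s, hs, rfl⟩ | ⟨i, rfl⟩)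
        · exact Or.inl (Or.inl ⟨s, w₁ s, ⟨s, hs, rfl⟩, rfl⟩)
        · exact Or.inr ⟨i, rfl⟩
      have h4 : BFR S (ext S S' e (A \ range e) T₂) univ univ η
          (((fun a : ℕ × ℕ => (e (w₁ a.1), Sum.inl a.2)) '' p) ∪
            range fun i => (c i, par e c hc t₂ i)) := by
        refine h3.trans (h.mono le_self_add) ?_
        rintro a (⟨b, hb, rfl⟩ | ⟨i, rfl⟩)
        · exact ⟨Sum.inl b.1, Or.inl ⟨b.1, ⟨b, hb, rfl⟩, rfl⟩, Or.inl ⟨b, hb, rfl⟩⟩
        · exact ⟨_, Or.inr ⟨i, rfl⟩, Or.inr ⟨i, rfl⟩⟩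
      have h5 := H1 ((fun a : ℕ × ℕ => (w₁ a.1, w₂ a.2)) '' p) (hp.image _) (by
        refine h4.trans hw₂ ?_
        rintro a (⟨_, ⟨b, hb, rfl⟩, rfl⟩ | ⟨f, hf, rfl⟩)
        · exact ⟨Sum.inl b.2, Or.inl ⟨b, hb, rfl⟩,
            Or.inl (Or.inl ⟨b.2, w₂ b.2, ⟨b.2, ⟨b, hb, rfl⟩, rfl⟩, rfl⟩)⟩
        · rw [hF] at hf
          obtain ⟨i, rfl⟩ := hf
          exact ⟨_, Or.inr ⟨i, rfl⟩, Or.inr ⟨i, rfl⟩⟩)
      have h6 : AtEq T₁ S' ((fun a : ℕ × ℕ => (a.1, w₂ a.2)) '' p) := by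
        refine atEq_trans ha₁ h5 ?_
        rintro _ ⟨b, hb, rfl⟩
        exact ⟨w₁ b.1, ⟨b.1, ⟨b, hb, rfl⟩, rfl⟩, ⟨b, hb, rfl⟩⟩
      refine atEq_trans h6 (atEq_symm ha₂ (q := (fun s => (w₂ s, s)) '' (Prod.snd '' p)) ?_) ?_
      · rintro _ ⟨s, hs, rfl⟩
        exact ⟨s, hs, rfl⟩
      · intro b hb
        exact ⟨w₂ b.2, ⟨b, hb, rfl⟩, ⟨b.2, ⟨b, hb, rfl⟩, rfl⟩⟩
    · obtain ⟨y, -, hy⟩ := h.forth (add_lt_add_right hβ η) (mem_univ (Sum.inl x))
      obtain ⟨s, rfl⟩ := (dfn (Sum.inl x) y (BFR.anti (by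
        rintro a (rfl | ha)
        · exact mem_insert _ _
        · exact mem_insert_of_mem _ (Or.inr ha)) (hy.mono le_self_add))).mp ⟨x, rfl⟩
      refine ⟨s, mem_univ _, ih β hβ (hp.insert _) (BFR.anti ?_ hy)⟩
      rintro a (⟨b, (rfl | hb), rfl⟩ | ha)
      · exact mem_insert _ _
      · exact mem_insert_of_mem _ (Or.inl ⟨b, hb, rfl⟩)
      · exact mem_insert_of_mem _ (Or.inr ha)
    · obtain ⟨x, -, hx⟩ := h.back (add_lt_add_right hβ η) (mem_univ (Sum.inl y))
      obtain ⟨s, rfl⟩ := (dfn x (Sum.inl y) (BFR.anti (by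
        rintro a (rfl | ha)
        · exact mem_insert _ _
        · exact mem_insert_of_mem _ (Or.inr ha)) (hx.mono le_self_add))).mpr ⟨y, rfl⟩
      refine ⟨s, mem_univ _, ih β hβ (hp.insert _) (BFR.anti ?_ hx)⟩
      rintro a (⟨b, (rfl | hb), rfl⟩ | ha)
      · exact mem_insert _ _
      · exact mem_insert_of_mem _ (Or.inl ⟨b, hb, rfl⟩)
      · exact mem_insert_of_mem _ (Or.inr ha)

end ext

theorem bfr_pl_equiv [∀ n, IsEmpty (L.Functions n)] {S : L.Structure M} (E : ℕ ≃ M)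
    (γ : Ordinal.{0}) {p : Set (ℕ × M)} (hp : ∀ a ∈ p, a.2 = E a.1) :
    BFR (pl S E) S univ univ γ p := by
  have := BFR_pl (S := S) E.injective γ hp
  rwa [E.surjective.range_eq] at this

end VI

open VI in
/-- **Interpretations.** `S'` lives on a definable subset of `M`, its atomic facts are definable
in `S` (over `F`, at level `η`), and they determine the atomic facts of `S` also together with any
elements outside this subset. -/
theorem VSt.interp [∀ n, IsEmpty (L.Functions n)] [∀ n, Countable (L.Relations n)]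
    [∀ n, IsEmpty (L'.Functions n)] [∀ n, Countable (L'.Relations n)]
    {K : Set (L.Structure ℕ)} {δ : Ordinal.{0}} {S : L.Structure M}
    {M' : Type} {S' : L'.Structure M'} (hS : VSt K δ S) (e : M' → M)
    (he : Function.Injective e) [Infinite M'] (F : Finset M) {η : Ordinal.{0}} (hη : η < om1)
    (hX : ∀ c c', BFR S S univ univ η (insert (c, c') (dg (F : Set M))) →
      (c ∈ range e ↔ c' ∈ range e))
    (H1 : ∀ p : Set (M' × M'), p.Finite →
      BFR S S univ univ η ((fun a => (e a.1, e a.2)) '' p ∪ dg (F : Set M)) → AtEq S' S' p)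
    (H2 : ∀ p : Set (M' × M'), p.Finite → AtEq S' S' p → ∀ G : Set M, (∀ g ∈ G, g ∉ range e) →
      AtEq S S ((fun a => (e a.1, e a.2)) '' p ∪ dg G)) :
    ∃ (K' : Set (L'.Structure ℕ)) (δ' : Ordinal.{0}), VSt K' δ' S' := by
  classical
  -- ordinals
  set ww : Ordinal.{0} := Ordinal.omega0 + Ordinal.omega0 with hww
  have hwwlt : ww < om1 := add_lt_om1 omega_lt_om1 omega_lt_om1
  set δ' : Ordinal.{0} := max δ (η + ww) with hδ'
  have hδ'lt : δ' < om1 := max_lt hS.lt (add_lt_om1 hη hwwlt)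
  set lam : Ordinal.{0} := η + δ' with hlam
  have hlamlt : lam < om1 := add_lt_om1 hη hδ'lt
  have hηlam : η ≤ lam := le_self_add
  have hδlam : δ' ≤ lam := le_add_self
  -- types of the substructure
  have hsm : ∀ d < om1, ∀ F' : Finset M', ∃ κ : M' → ℕ, ∀ c c', κ c = κ c' →
      BFR S' S' univ univ d (insert (c, c') (dg (F' : Set M'))) := by
    intro d hd F'
    obtain ⟨κ, hκ⟩ := countable_classes hS.scat (add_lt_om1 hη hd) hS.lev (F'.image e ∪ F)
    refine ⟨fun c => κ (e c), fun c c' h => ?_⟩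
    refine VI.restr hX H1 d ((F'.finite_toSet.image _).insert _) (BFR.anti ?_ (hκ _ _ h))
    rintro a (⟨b, (rfl | ⟨f, hf, rfl⟩), rfl⟩ | ⟨f, hf, rfl⟩)
    · exact mem_insert _ _
    · refine mem_insert_of_mem _ ⟨e f, ?_, rfl⟩
      rw [Finset.coe_union, Finset.coe_image]
      exact Or.inl ⟨f, hf, rfl⟩
    · refine mem_insert_of_mem _ ⟨f, ?_, rfl⟩
      rw [Finset.coe_union]
      exact Or.inr hf
  -- the countable closed set
  obtain ⟨A, hAc, hA₀, hA⟩ := exists_clo (S := S) (d := lam)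
    (fun F' => countable_classes hS.scat hlamlt hS.lev F')
    (A₀ := (F : Set M) ∪ {e (Classical.arbitrary M')})
    (F.countable_toSet.union (countable_singleton _))
  have hFA : (F : Set M) ⊆ A := subset_union_left.trans hA₀
  have hA₁ : e (Classical.arbitrary M') ∈ A := hA₀ (Or.inr rfl)
  have hClo : Clo S univ lam A := by
    intro F' hF' c _
    obtain ⟨c', hc', h'⟩ := hA F' (fun a ha => (hF' ha).1) c
    exact ⟨c', ⟨hc', mem_univ _⟩, h'⟩
  set A' : Set M' := e ⁻¹' A with hA'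
  have hA'c : A'.Countable := hAc.preimage he
  have hA'cl : ∀ F' : Finset M', (F' : Set M') ⊆ A' → ∀ c : M', ∃ c' ∈ A',
      BFR S' S' univ univ δ' (insert (c, c') (dg (F' : Set M'))) := by
    intro F' hF' c
    obtain ⟨c', hc', h⟩ := hA (F'.image e ∪ F) (by
      rw [Finset.coe_union, Finset.coe_image]
      rintro a (⟨b, hb, rfl⟩ | ha)
      · exact hF' hb
      · exact hFA ha) (e c)
    have h1 := (hX (e c) c' (BFR.anti (by
      rintro a (rfl | ⟨f, hf, rfl⟩)
      · exact mem_insert _ _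
      · refine mem_insert_of_mem _ ⟨f, ?_, rfl⟩
        rw [Finset.coe_union]
        exact Or.inr hf) (h.mono hηlam))).mp (mem_range_self c)
    obtain ⟨d, rfl⟩ := h1
    refine ⟨d, hc', VI.restr hX H1 δ' ((F'.finite_toSet.image _).insert _) (BFR.anti ?_ h)⟩
    rintro a (⟨b, (rfl | ⟨f, hf, rfl⟩), rfl⟩ | ⟨f, hf, rfl⟩)
    · exact mem_insert _ _
    · refine mem_insert_of_mem _ ⟨e f, ?_, rfl⟩
      rw [Finset.coe_union, Finset.coe_image]
      exact Or.inl ⟨f, hf, rfl⟩
    · refine mem_insert_of_mem _ ⟨f, ?_, rfl⟩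
      rw [Finset.coe_union]
      exact Or.inr hf
  obtain ⟨T₀, hT₀1, hT₀2, hT₀3⟩ := exists_copy hA'c hA'cl
  -- the class
  set K' : Set (L'.Structure ℕ) := {T | BFR T S' univ A' δ' ∅} with hK'
  have hK'1 : ∀ T : L'.Structure ℕ, T ∈ K' ↔ BFR T T₀ univ univ δ' ∅ := by
    intro T
    constructor
    · intro h
      exact BFR.trans h (hT₀1.symm (q := ∅) fun a ha => absurd ha (notMem_empty a))
        fun a ha => absurd ha (notMem_empty a)
    · intro h
      exact BFR.trans h hT₀1 fun a ha => absurd ha (notMem_empty a)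
  have hK'2 : ∀ T : L'.Structure ℕ, BFR T S' univ univ δ' ∅ → T ∈ K' := by
    intro T h
    rw [hK'1]
    exact BFR.trans h (hT₀2.symm (q := ∅) fun a ha => absurd ha (notMem_empty a))
      fun a ha => absurd ha (notMem_empty a)
  -- parameters
  set m := F.card with hm
  let c : Fin m → M := fun i => (F.equivFin.symm i : M)
  have hcA : ∀ i, c i ∈ A := fun i => hFA (F.equivFin.symm i).2
  have hcF : (F : Set M) = range c := by
    ext x
    constructor
    · intro hx
      exact ⟨F.equivFin ⟨x, hx⟩, by simp [c]⟩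
    · rintro ⟨i, rfl⟩
      exact (F.equivFin.symm i).2
  let g : Fin m → M' := fun i => if h : c i ∈ range e then h.choose else Classical.arbitrary M'
  have gc : ∀ i, c i ∈ range e → e (g i) = c i := by
    intro i h
    simp only [g, dif_pos h]
    exact h.choose_spec
  have gA : ∀ i, e (g i) ∈ A := by
    intro i
    by_cases h : c i ∈ range e
    · rw [gc i h]; exact hcA i
    · simp only [g, dif_neg h]; exact hA₁
  have hpd : ∀ T ∈ K', ∃ t : Fin m → ℕ, Pd S' e A η c g T t := by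
    intro T hT
    have h1 : BFR T S' univ A' (η + Ordinal.omega0 + ((m : ℕ) : Ordinal.{0})) ∅ := by
      refine BFR.mono ?_ hT
      refine le_trans ?_ (le_max_right _ _)
      rw [hww, ← add_assoc]
      gcongr
      exact (Ordinal.natCast_lt_omega0 _).le
    obtain ⟨t, -, ht⟩ := BFR.back_many _ h1 g gA
    exact ⟨t, gA, gc, BFR.anti subset_union_right ht⟩
  choose! tp htp using hpd
  -- the enumeration of the extensions
  have hBc : Countable (A \ range e : Set M) := (hAc.mono sdiff_subset).to_subtype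
  obtain ⟨E⟩ := nonempty_equiv_of_countable (α := ℕ) (β := ℕ ⊕ (A \ range e : Set M))
  let Nx : L'.Structure ℕ → L.Structure (ℕ ⊕ (A \ range e : Set M)) :=
    fun T => ext S S' e (A \ range e) T
  have hNK : ∀ T ∈ K', pl (Nx T) E ∈ K := by
    intro T hT
    have h1 : BFR (Nx T) S univ univ δ ∅ := by
      have h2 := bfr_ext' he H2 hClo hδlam finite_empty (fun a ha => absurd ha (notMem_empty a))
        (G := ∅) finite_empty hT
      exact BFR.anti (empty_subset _) (h2.mono (le_max_left _ _))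
    have h3 : BFR (pl (Nx T) E) S univ univ δ ∅ :=
      BFR.trans (bfr_pl_equiv E δ (p := ∅) fun a ha => absurd ha (notMem_empty a)) h1
        fun a ha => absurd ha (notMem_empty a)
    obtain ⟨S1, hS1, h4⟩ := hS.lev δ hS.lt
    exact hS.clos S1 hS1 _ ((h3.trans h4 (r := ∅) fun a ha => absurd ha (notMem_empty a)).symm
      fun a ha => absurd ha (notMem_empty a))
  refine ⟨K', δ', ⟨?_, ?_, hδ'lt, ?_, ?_, ?_⟩⟩
  · -- measurable
    have : {c : Code L' | toStr c ∈ K'} = {c : Code L' | BFR (toStr c) T₀ univ univ δ' ∅} := by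
      ext c
      exact hK'1 _
    rw [this]
    exact measurableSet_BFR T₀ hδ'lt ∅
  · -- scattered
    intro γ hγ n
    obtain ⟨ρ, hρ⟩ := hS.scat (η + γ) (add_lt_om1 hη hγ) (n + m)
    let u : L'.Structure ℕ → (Fin n → ℕ) → Fin (n + m) → ℕ := fun T v =>
      Fin.append (fun i => E.symm (Sum.inl (v i))) (fun j => E.symm (par e c hcA (tp T) j))
    let Rl : L'.Structure ℕ × (Fin n → ℕ) → ℕ → Prop := fun x i =>
      x.1 ∈ K' ∧ BFR (pl (Nx x.1) E) (ρ i).1 univ univ (η + γ) (pr (u x.1 x.2) (ρ i).2)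
    let ρ' : ℕ → L'.Structure ℕ × (Fin n → ℕ) := fun i =>
      if h : ∃ x, Rl x i then h.choose else (T₀, fun _ => 0)
    refine ⟨ρ', fun T hT v => ?_⟩
    obtain ⟨i, -, hi⟩ := hρ _ (hNK T hT) (u T v)
    have hex : ∃ x, Rl x i := ⟨(T, v), hT, hi⟩
    have hρ' : ρ' i = hex.choose := by simp only [ρ', dif_pos hex]
    obtain ⟨hK2, hi2⟩ := hex.choose_spec
    rw [← hρ'] at hK2 hi2
    refine ⟨i, hK2, ?_⟩
    set T₂ := (ρ' i).1 with hT₂
    set v₂ := (ρ' i).2 with hv₂
    have h1 : BFR (pl (Nx T) E) (pl (Nx T₂) E) univ univ (η + γ) (pr (u T v) (u T₂ v₂)) := by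
      refine BFR.trans hi (hi2.symm (q := pr (ρ i).2 (u T₂ v₂)) ?_) ?_
      · rintro _ ⟨j, rfl⟩
        exact ⟨j, rfl⟩
      · rintro _ ⟨j, rfl⟩
        exact ⟨_, ⟨j, rfl⟩, ⟨j, rfl⟩⟩
    have h2 : BFR (Nx T) (pl (Nx T₂) E) univ univ (η + γ)
        (range fun j => (E (u T v j), u T₂ v₂ j)) := by
      refine BFR.trans ((bfr_pl_equiv (S := Nx T) E (η + γ)
        (p := {a | a.2 = E a.1}) fun a ha => ha).symm (q := {a | a.1 = E a.2}) fun a ha => ha) h1 ?_
      rintro _ ⟨j, rfl⟩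
      exact ⟨u T v j, rfl, ⟨j, rfl⟩⟩
    have h3 : BFR (Nx T) (Nx T₂) univ univ (η + γ)
        (range fun j => (E (u T v j), E (u T₂ v₂ j))) := by
      refine BFR.trans h2 (bfr_pl_equiv (S := Nx T₂) E (η + γ)
        (p := {a | a.2 = E a.1}) fun a ha => ha) ?_
      rintro _ ⟨j, rfl⟩
      exact ⟨u T₂ v₂ j, ⟨j, rfl⟩, rfl⟩
    refine VI.down he H2 hClo hηlam hcA hcF hX H1 (htp T hT) (htp T₂ hK2) γ (finite_range _)
      (BFR.anti ?_ h3)
    rintro a (⟨_, ⟨j, rfl⟩, rfl⟩ | ⟨j, rfl⟩)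
    · exact ⟨Fin.castAdd m j, by simp [u]⟩
    · exact ⟨Fin.natAdd n j, by simp [u]⟩
  · -- the ordinal
    exact le_trans (le_add_self (a := ww) (b := η)) (le_max_right _ _)
  · -- closed
    intro T hT T' hTT'
    rw [hK'1] at hT ⊢
    exact BFR.trans (hTT'.symm (q := ∅) fun a ha => absurd ha (notMem_empty a)) hT
      fun a ha => absurd ha (notMem_empty a)
  · -- levels
    intro γ hγ
    have hlt : max γ δ' < om1 := max_lt hγ hδ'lt
    obtain ⟨A₂, hA₂c, -, hA₂⟩ := exists_clo (hsm _ hlt) (countable_empty (α := M'))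
    obtain ⟨T, -, hT, -⟩ := exists_copy hA₂c hA₂
    exact ⟨T, hK'2 T (hT.mono (le_max_right _ _)), (hT.mono (le_max_left _ _)).symm
      fun a ha => absurd ha (notMem_empty a)⟩

end Pool.Agent.Helper97.LO
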